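import Mathlib

/-!
# A fractional packing of arithmetic progressions

Blocks `[P, P + l)` of `[0, N)` get the weight `b N P`: this is the expected number of blocks when
`[0, N)` is cut into blocks whose lengths are the cycle lengths of a random permutation.
-/

namespace H248.AP

open Finset

/-- probability that a block of a given admissible length starts at `P` -/
noncomputable def b (N P : ℕ) : ℝ :=
  if P = 0 then 1 / (N : ℝ) else 1 / ((N : ℝ) - P) - 1 / ((N : ℝ) - P + 1)

lemma b_nonneg {N P : ℕ} (h : P < N) : 0 ≤ b N P := by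
  unfold b
  have h' : (P : ℝ) < N := by exact_mod_cast h
  split_ifs with h0
  · positivity
  · have h1 : (0 : ℝ) < (N : ℝ) - P := by linarith
    have : 1 / ((N : ℝ) - P + 1) ≤ 1 / ((N : ℝ) - P) :=
      one_div_le_one_div_of_le h1 (by linarith)
    linarith

lemma sum_b {N X : ℕ} (h : X < N) : ∑ P ∈ range (X + 1), b N P = 1 / ((N : ℝ) - X) := by
  induction X with
  | zero => simp [b]
  | succ X ih =>
    rw [Finset.sum_range_succ, ih (by omega)]
    unfold b
    rw [if_neg (by omega)]
    push_cast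
    ring_nf

/-- the coverage of the cell `X` by blocks with length in `(K, k]` -/
noncomputable def C (N K k X : ℕ) : ℝ :=
  ∑ l ∈ Ioc K k, ∑ P ∈ range (N + 1 - l), if P ≤ X ∧ X < P + l then b N P else 0

lemma C_eq (N K k X : ℕ) (hX : X < N) :
    C N K k X = ∑ P ∈ range (X + 1),
      ((Ioc K k).filter (fun l => P + l ≤ N ∧ X < P + l)).card * b N P := by
  unfold C
  have h1 : ∀ l ∈ Ioc K k, ∑ P ∈ range (N + 1 - l), (if P ≤ X ∧ X < P + l then b N P else 0)
      = ∑ P ∈ range (X + 1), (if P + l ≤ N ∧ X < P + l then b N P else 0) := by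
    intro l hl
    have hl0 : 0 < l := by have := (Finset.mem_Ioc.1 hl).1; omega
    rw [← Finset.sum_filter, ← Finset.sum_filter]
    apply Finset.sum_congr _ (fun _ _ => rfl)
    ext P
    simp only [Finset.mem_filter, Finset.mem_range]
    omega
  rw [Finset.sum_congr rfl h1, Finset.sum_comm]
  apply Finset.sum_congr rfl
  intro P _
  rw [← Finset.sum_filter, Finset.sum_const, nsmul_eq_mul]

lemma C_nonneg (N K k X : ℕ) : 0 ≤ C N K k X := by
  unfold C
  apply Finset.sum_nonneg
  intro l hl
  have hl0 : 0 < l := by have := (Finset.mem_Ioc.1 hl).1; omega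
  apply Finset.sum_nonneg
  intro P hP
  rw [Finset.mem_range] at hP
  split_ifs
  · exact b_nonneg (by omega)
  · exact le_rfl

lemma C_zero {N K k X : ℕ} (hX : N ≤ X) : C N K k X = 0 := by
  unfold C
  apply Finset.sum_eq_zero
  intro l hl
  apply Finset.sum_eq_zero
  intro P hP
  rw [Finset.mem_range] at hP
  rw [if_neg]
  have hl0 : 0 < l := by have := (Finset.mem_Ioc.1 hl).1; omega
  omega

lemma card_le1 (N K k X P : ℕ) :
    ((Ioc K k).filter (fun l => P + l ≤ N ∧ X < P + l)).card ≤ N - X := by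
  have : ((Ioc K k).filter (fun l => P + l ≤ N ∧ X < P + l)).card ≤ (Ioc X N).card := by
    apply Finset.card_le_card_of_injOn (fun l => P + l)
    · intro l hl
      have := (Finset.mem_filter.1 hl).2
      exact Finset.mem_coe.2 (Finset.mem_Ioc.2 ⟨this.2, this.1⟩)
    · intro a _ c _ h
      simpa using h
  simpa using this

lemma card_le2 (N K k X : ℕ) (hX : X < k) :
    ((Ioc K k).filter (fun l => 0 + l ≤ N ∧ X < 0 + l)).card ≤ k - X := by
  have : ((Ioc K k).filter (fun l => 0 + l ≤ N ∧ X < 0 + l)).card ≤ (Ioc X k).card := by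
    apply Finset.card_le_card
    intro l hl
    have h1 := (Finset.mem_filter.1 hl).2
    have h2 := Finset.mem_Ioc.1 (Finset.mem_filter.1 hl).1
    exact Finset.mem_Ioc.2 ⟨by omega, h2.2⟩
  simpa using this

lemma C_le_one {N K k X : ℕ} : C N K k X ≤ 1 := by
  rcases lt_or_ge X N with hX | hX
  · rw [C_eq N K k X hX]
    have hNX : (0 : ℝ) < (N : ℝ) - X := by
      have : (X : ℝ) < N := by exact_mod_cast hX
      linarith
    calc ∑ P ∈ range (X + 1), ((Ioc K k).filter (fun l => P + l ≤ N ∧ X < P + l)).card * b N P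
        ≤ ∑ P ∈ range (X + 1), ((N : ℝ) - X) * b N P := by
          apply Finset.sum_le_sum
          intro P hP
          rw [Finset.mem_range] at hP
          apply mul_le_mul_of_nonneg_right _ (b_nonneg (by omega))
          have h : ((((Ioc K k).filter (fun l => P + l ≤ N ∧ X < P + l)).card : ℕ) : ℝ)
            ≤ ((N - X : ℕ) : ℝ) := by exact_mod_cast card_le1 N K k X P
          rwa [Nat.cast_sub hX.le] at h
      _ = ((N : ℝ) - X) * (1 / ((N : ℝ) - X)) := by rw [← Finset.mul_sum, sum_b hX]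
      _ = 1 := by field_simp
  · rw [C_zero hX]; exact zero_le_one

lemma C_le_slack {N K k X : ℕ} (hk : k ≤ N) (hX : X < k) :
    C N K k X ≤ 1 - ((N : ℝ) - k) / N := by
  have hXN : X < N := by omega
  rw [C_eq N K k X hXN, Finset.sum_range_succ']
  have hNX : (0 : ℝ) < (N : ℝ) - X := by
    have : (X : ℝ) < N := by exact_mod_cast hXN
    linarith
  have hN0 : (0 : ℝ) < N := by
    have : 0 < N := by omega
    exact_mod_cast this
  have h0 : ((((Ioc K k).filter (fun l => 0 + l ≤ N ∧ X < 0 + l)).card : ℕ) : ℝ) * b N 0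
      ≤ (((N : ℝ) - X) - ((N : ℝ) - k)) * b N 0 := by
    apply mul_le_mul_of_nonneg_right _ (b_nonneg (by omega))
    have h : ((((Ioc K k).filter (fun l => 0 + l ≤ N ∧ X < 0 + l)).card : ℕ) : ℝ)
            ≤ ((k - X : ℕ) : ℝ) := by exact_mod_cast card_le2 N K k X hX
    rw [Nat.cast_sub hX.le] at h
    linarith
  have h1 : ∑ P ∈ range X, (((Ioc K k).filter
      (fun l => (P + 1) + l ≤ N ∧ X < (P + 1) + l)).card : ℝ) * b N (P + 1)
      ≤ ∑ P ∈ range X, ((N : ℝ) - X) * b N (P + 1) := by
    apply Finset.sum_le_sum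
    intro P hP
    rw [Finset.mem_range] at hP
    apply mul_le_mul_of_nonneg_right _ (b_nonneg (by omega))
    have h : ((((Ioc K k).filter (fun l => (P + 1) + l ≤ N ∧ X < (P + 1) + l)).card : ℕ) : ℝ)
      ≤ ((N - X : ℕ) : ℝ) := by exact_mod_cast card_le1 N K k X (P + 1)
    rwa [Nat.cast_sub hXN.le] at h
  have h2 : ∑ P ∈ range X, ((N : ℝ) - X) * b N (P + 1) + ((N : ℝ) - X) * b N 0 = 1 := by
    rw [← Finset.mul_sum, ← mul_add, ← Finset.sum_range_succ' (fun P => b N P), sum_b hXN]
    field_simp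
  have h3 : b N 0 = 1 / (N : ℝ) := by simp [b]
  have h4 : (((N : ℝ) - X) - ((N : ℝ) - k)) * b N 0 = ((N : ℝ) - X) * b N 0 - ((N : ℝ) - k) / N := by
    rw [h3]; ring
  linarith

end H248.AP
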