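import Mathlib

/-!
# Greedy placement of the remaining progressions, and residue classes
-/

namespace H248.AP

open Finset

lemma greedy (n m T : ℕ) (R : ℕ → Prop) (L : Finset ℕ)
    (hst : ∀ d ∈ L, ∃ S : Finset ℕ, T ≤ S.card ∧ ∀ s ∈ S, ∀ i < n, R (s + i * d) ∧ s + i * d < m)
    (hT : L.card * (n * n) < T) :
    ∃ p : ℕ → ℕ, (∀ d ∈ L, ∀ i < n, R (p d + i * d) ∧ p d + i * d < m) ∧
      ∀ d ∈ L, ∀ d' ∈ L, d ≠ d' → ∀ i < n, ∀ i' < n, p d + i * d ≠ p d' + i' * d' := by
  induction L using Finset.induction with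
  | empty => exact ⟨fun _ => 0, by simp, by simp⟩
  | insert d L hd ih =>
    rw [Finset.card_insert_of_notMem hd] at hT
    obtain ⟨p, hp1, hp2⟩ := ih (fun d' hd' => hst d' (Finset.mem_insert_of_mem hd'))
      (lt_of_le_of_lt (Nat.mul_le_mul_right _ (Nat.le_succ _)) hT)
    obtain ⟨S, hS, hSR⟩ := hst d (Finset.mem_insert_self _ _)
    let Bl : Finset ℕ := L.biUnion (fun d' => (range n ×ˢ range n).image
      (fun ij => p d' + ij.2 * d' - ij.1 * d))
    have hBl : Bl.card ≤ L.card * (n * n) := by
      refine Finset.card_biUnion_le.trans ?_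
      calc ∑ d' ∈ L, ((range n ×ˢ range n).image (fun ij : ℕ × ℕ => p d' + ij.2 * d' - ij.1 * d)).card
          ≤ ∑ d' ∈ L, n * n := by
            apply Finset.sum_le_sum
            intro d' _
            refine Finset.card_image_le.trans ?_
            simp
        _ = L.card * (n * n) := by simp
    have hlt : Bl.card < S.card := by
      have : L.card * (n * n) ≤ (L.card + 1) * (n * n) := Nat.mul_le_mul_right _ (Nat.le_succ _)
      omega
    obtain ⟨s, hsS, hsB⟩ := Finset.exists_mem_notMem_of_card_lt_card hlt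
    have hconf : ∀ d' ∈ L, ∀ i < n, ∀ i' < n, s + i * d ≠ p d' + i' * d' := by
      intro d' hd' i hi i' hi' heq
      apply hsB
      rw [Finset.mem_biUnion]
      refine ⟨d', hd', ?_⟩
      rw [Finset.mem_image]
      refine ⟨(i, i'), ?_, ?_⟩
      · rw [Finset.mem_product, Finset.mem_range, Finset.mem_range]; exact ⟨hi, hi'⟩
      · simp only
        omega
    refine ⟨Function.update p d s, ?_, ?_⟩
    · intro d' hd' i hi
      rcases Finset.mem_insert.1 hd' with rfl | hd'
      · rw [Function.update_self]; exact hSR s hsS i hi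
      · have hne : d' ≠ d := fun h => hd (h ▸ hd')
        rw [Function.update_of_ne hne]; exact hp1 d' hd' i hi
    · intro d₁ h₁ d₂ h₂ hne i hi i' hi'
      by_cases e1 : d₁ = d
      · subst e1
        have h₂ := Finset.mem_of_mem_insert_of_ne h₂ (Ne.symm hne)
        rw [Function.update_self, Function.update_of_ne (Ne.symm hne)]
        exact hconf d₂ h₂ i hi i' hi'
      · have h₁' := Finset.mem_of_mem_insert_of_ne h₁ e1
        by_cases e2 : d₂ = d
        · subst e2
          rw [Function.update_self, Function.update_of_ne hne]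
          exact fun h => hconf d₁ h₁' i' hi' i hi h.symm
        · have h₂' := Finset.mem_of_mem_insert_of_ne h₂ e2
          rw [Function.update_of_ne e1, Function.update_of_ne e2]
          exact hp2 d₁ h₁' d₂ h₂' hne i hi i' hi'

/-- the moduli: primes, all at least `B` -/
noncomputable def q (B j : ℕ) : ℕ := Nat.nth Nat.Prime (B + j)

lemma q_prime (B j : ℕ) : (q B j).Prime := Nat.nth_mem_of_infinite Nat.infinite_setOfPred_prime _

lemma q_ge (B j : ℕ) : B ≤ q B j := by
  have h : B + j ≤ Nat.nth Nat.Prime (B + j) :=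
    (Nat.nth_strictMono Nat.infinite_setOfPred_prime).le_apply
  unfold q
  omega

lemma q_inj (B : ℕ) {i j : ℕ} (h : q B i = q B j) : i = j := by
  have := (Nat.nth_strictMono Nat.infinite_setOfPred_prime).injective h
  omega

lemma exists_start (B n d : ℕ) : ∃ r < ∏ j ∈ range n, q B j, ∀ i < n, q B i ∣ r + i * d := by
  have hco : Set.Pairwise (↑(range n)) (Function.onFun Nat.Coprime (q B)) := by
    intro i _ j _ hij
    exact (Nat.coprime_primes (q_prime B i) (q_prime B j)).2 (fun h => hij (q_inj B h))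
  obtain ⟨r, hr⟩ := Nat.chineseRemainderOfFinset
    (fun i => q B i * (i * d) - i * d) (q B) (range n)
    (fun i _ => (q_prime B i).ne_zero) hco
  have hQ : 0 < ∏ j ∈ range n, q B j := Finset.prod_pos (fun j _ => (q_prime B j).pos)
  refine ⟨r % ∏ j ∈ range n, q B j, Nat.mod_lt _ hQ, ?_⟩
  intro i hi
  have h1 := hr i (Finset.mem_range.2 hi)
  have hdvd : q B i ∣ ∏ j ∈ range n, q B j := Finset.dvd_prod_of_mem _ (Finset.mem_range.2 hi)
  have h2 : (r % ∏ j ∈ range n, q B j) ≡ r [MOD q B i] :=
    (Nat.mod_modEq r (∏ j ∈ range n, q B j)).of_dvd hdvd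
  have h3 : (r % ∏ j ∈ range n, q B j) + i * d ≡ (q B i * (i * d) - i * d) + i * d [MOD q B i] :=
    (h2.trans h1).add_right _
  have h4 : (q B i * (i * d) - i * d) + i * d = q B i * (i * d) := by
    have : i * d ≤ q B i * (i * d) := Nat.le_mul_of_pos_left _ (q_prime B i).pos
    omega
  rw [h4] at h3
  exact (Nat.modEq_zero_iff_dvd).1 (h3.trans ((Nat.modEq_zero_iff_dvd).2 (dvd_mul_right _ _)))

/-- number of multiples of `q` in a window -/
lemma card_dvd_window (a l c q : ℕ) (hq : 0 < q) :
    ((Ico a (a + l)).filter (fun s => q ∣ s + c)).card ≤ l / q + 1 := by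
  have key : ∀ s s', a ≤ s → s < s' → q ∣ s + c → q ∣ s' + c → (s - a) / q < (s' - a) / q := by
    intro s s' has hss h h'
    obtain ⟨t, ht⟩ := h
    obtain ⟨t', ht'⟩ := h'
    have hlt : t < t' := by
      by_contra hcon
      have : q * t' ≤ q * t := Nat.mul_le_mul_left _ (by omega)
      omega
    have h1 : q * t + q ≤ q * t' := by
      calc q * t + q = q * (t + 1) := by ring
        _ ≤ q * t' := Nat.mul_le_mul_left _ hlt
    have h2 : (s - a) + q ≤ s' - a := by omega
    have h3 := Nat.div_le_div_right (c := q) h2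
    rw [Nat.add_div_right _ hq] at h3
    omega
  have : ((Ico a (a + l)).filter (fun s => q ∣ s + c)).card ≤ (range (l / q + 1)).card := by
    apply Finset.card_le_card_of_injOn (fun s => (s - a) / q)
    · intro s hs
      have h := Finset.mem_Ico.1 (Finset.mem_filter.1 hs).1
      have h1 : (s - a) / q ≤ l / q := Nat.div_le_div_right (by omega)
      exact Finset.mem_coe.2 (Finset.mem_range.2 (by simpa using Nat.lt_succ_of_le h1))
    · intro s hs s' hs' h
      have h1 := Finset.mem_filter.1 (Finset.mem_coe.1 hs)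
      have h2 := Finset.mem_filter.1 (Finset.mem_coe.1 hs')
      have a1 := (Finset.mem_Ico.1 h1.1).1
      have a2 := (Finset.mem_Ico.1 h2.1).1
      simp only at h
      rcases lt_trichotomy s s' with hlt | heq | hgt
      · have := key s s' a1 hlt h1.2 h2.2; omega
      · exact heq
      · have := key s' s a2 hgt h2.2 h1.2; omega
  simpa using this

/-- `s` is a bad start: the progression meets the reserved set -/
def Bad (B n l s : ℕ) : Prop := ∃ i < n, ∃ j < n, q B j ∣ s + i * l

lemma card_bad (B n l a : ℕ) [DecidablePred (Bad B n l)] (hB : 0 < B) :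
    (((Ico a (a + l)).filter (Bad B n l)).card : ℝ) ≤ (n : ℝ) ^ 2 * ((l : ℝ) / B + 1) := by
  classical
  have h1 : ((Ico a (a + l)).filter (Bad B n l)).card ≤ (range n ×ˢ range n).card * (l / B + 1) := by
    have hsub : (Ico a (a + l)).filter (Bad B n l) ⊆ (range n ×ˢ range n).biUnion
        (fun ij => (Ico a (a + l)).filter (fun s => q B ij.2 ∣ s + ij.1 * l)) := by
      intro s hs
      obtain ⟨hs1, i, hi, j, hj, hd⟩ := Finset.mem_filter.1 hs
      rw [Finset.mem_biUnion]
      refine ⟨(i, j), ?_, ?_⟩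
      · rw [Finset.mem_product, Finset.mem_range, Finset.mem_range]; exact ⟨hi, hj⟩
      · exact Finset.mem_filter.2 ⟨hs1, hd⟩
    refine (Finset.card_le_card hsub).trans ?_
    refine Finset.card_biUnion_le_card_mul _ _ _ ?_
    intro ij _
    refine (card_dvd_window a l (ij.1 * l) (q B ij.2) (q_prime _ _).pos).trans ?_
    have : l / q B ij.2 ≤ l / B := Nat.div_le_div_left (q_ge B ij.2) hB
    omega
  have h2 : (((Ico a (a + l)).filter (Bad B n l)).card : ℝ) ≤
      ((range n ×ˢ range n).card : ℝ) * (((l / B : ℕ) : ℝ) + 1) := by exact_mod_cast h1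
  refine h2.trans ?_
  rw [Finset.card_product, Finset.card_range]
  have h3 : ((l / B : ℕ) : ℝ) ≤ (l : ℝ) / B := Nat.cast_div_le
  push_cast
  have h4 : (0 : ℝ) ≤ (n : ℝ) * n := by positivity
  nlinarith

end H248.AP
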