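import Mathlib
import Pool.Agent.H248.AP.Frac

/-!
# Weights of arithmetic progressions: normalisation, loads and smallness
-/

namespace H248.AP

open Finset

/-- weight of the progression with difference `l` and first term `s` -/
noncomputable def g (n N e l s : ℕ) : ℝ :=
  ∑ τ ∈ range 2, ∑ P ∈ range (N + 1 - l),
    if n * (P + τ * e) ≤ s ∧ s < n * (P + τ * e) + l then b N P / 2 else 0

lemma sum_bl {N l : ℕ} (hl : 0 < l) (hlN : l ≤ N) : ∑ P ∈ range (N + 1 - l), b N P = 1 / (l : ℝ) := by
  have h : N + 1 - l = (N - l) + 1 := by omega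
  rw [h, sum_b (by omega), Nat.cast_sub hlN]
  ring_nf

lemma b2_nonneg {N l P : ℕ} (hl : 0 < l) (hP : P ∈ range (N + 1 - l)) : 0 ≤ b N P / 2 := by
  rw [Finset.mem_range] at hP
  have := b_nonneg (N := N) (P := P) (by omega)
  linarith

lemma g_nonneg {n N e l s : ℕ} (hl : 0 < l) : 0 ≤ g n N e l s := by
  unfold g
  apply Finset.sum_nonneg
  intro τ _
  apply Finset.sum_nonneg
  intro P hP
  split_ifs
  · exact b2_nonneg hl hP
  · exact le_rfl

lemma g_le {n N e l s : ℕ} (hl : 0 < l) (hlN : l ≤ N) : g n N e l s ≤ 1 / (l : ℝ) := by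
  unfold g
  calc _ ≤ ∑ τ ∈ range 2, ∑ P ∈ range (N + 1 - l), b N P / 2 := by
        apply Finset.sum_le_sum
        intro τ _
        apply Finset.sum_le_sum
        intro P hP
        split_ifs
        · exact le_rfl
        · exact b2_nonneg hl hP
    _ = 1 / (l : ℝ) := by
        rw [Finset.sum_const, ← Finset.sum_div, sum_bl hl hlN]
        simp
        ring

/-- a start of positive weight -/
lemma of_g_pos {n N e l s : ℕ} (h : 0 < g n N e l s) (hl : l ≤ N) (hn : 0 < n) :
    s + (n - 1) * l < n * (N + e) := by
  unfold g at h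
  obtain ⟨τ, hτ, h⟩ := Finset.exists_lt_of_sum_lt (s := range 2) (f := fun _ => (0 : ℝ)) (by
    simpa using h)
  obtain ⟨P, hP, h⟩ := Finset.exists_lt_of_sum_lt (s := range (N + 1 - l)) (f := fun _ => (0 : ℝ)) (by
    simpa using h)
  rw [Finset.mem_range] at hτ hP
  split_ifs at h with hc
  · have hPl : P + l ≤ N := by omega
    have hτe : τ * e ≤ e := by
      have : τ ≤ 1 := by omega
      calc τ * e ≤ 1 * e := Nat.mul_le_mul_right _ this
        _ = e := one_mul _
    have h1 : n * (P + τ * e) + n * l ≤ n * (N + e) := by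
      rw [← Nat.mul_add]
      apply Nat.mul_le_mul_left
      omega
    obtain ⟨n', rfl⟩ : ∃ n', n = n' + 1 := ⟨n - 1, by omega⟩
    have h2 : (n' + 1) * l = n' * l + l := by ring
    simp only [Nat.add_sub_cancel]
    have := hc.2
    omega
  · exact absurd h (lt_irrefl _)

lemma sum_ind_g {n N e l : ℕ} (hl : 0 < l) (hlN : l ≤ N) (Bad : ℕ → Prop) [DecidablePred Bad]
    (c : ℝ) (hc : ∀ a : ℕ, (((Ico a (a + l)).filter Bad).card : ℝ) ≤ c) :
    ∑ s ∈ range (n * (N + e)), (if Bad s then g n N e l s else 0) ≤ (1 / (l : ℝ)) * c := by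
  have h1 : ∀ s, (if Bad s then g n N e l s else 0) = ∑ τ ∈ range 2, ∑ P ∈ range (N + 1 - l),
      (if Bad s ∧ n * (P + τ * e) ≤ s ∧ s < n * (P + τ * e) + l then b N P / 2 else 0) := by
    intro s
    unfold g
    by_cases h : Bad s
    · simp [h]
    · simp [h]
  rw [Finset.sum_congr rfl (fun s _ => h1 s), Finset.sum_comm]
  calc _ ≤ ∑ τ ∈ range 2, ∑ P ∈ range (N + 1 - l), c * (b N P / 2) := by
        apply Finset.sum_le_sum
        intro τ _
        rw [Finset.sum_comm]
        apply Finset.sum_le_sum
        intro P hP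
        rw [← Finset.sum_filter, Finset.sum_const, nsmul_eq_mul]
        apply mul_le_mul_of_nonneg_right _ (b2_nonneg hl hP)
        refine le_trans ?_ (hc (n * (P + τ * e)))
        have : ((range (n * (N + e))).filter
            (fun s => Bad s ∧ n * (P + τ * e) ≤ s ∧ s < n * (P + τ * e) + l)).card ≤
            ((Ico (n * (P + τ * e)) (n * (P + τ * e) + l)).filter Bad).card := by
          apply Finset.card_le_card
          intro s hs
          have := (Finset.mem_filter.1 hs).2
          exact Finset.mem_filter.2 ⟨Finset.mem_Ico.2 ⟨this.2.1, this.2.2⟩, this.1⟩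
        exact_mod_cast this
    _ = (1 / (l : ℝ)) * c := by
        rw [Finset.sum_const, ← Finset.mul_sum, ← Finset.sum_div, sum_bl hl hlN]
        simp
        ring

lemma sum_g {n N e l : ℕ} (hn : 0 < n) (hl : 0 < l) (hlN : l ≤ N) :
    ∑ s ∈ range (n * (N + e)), g n N e l s = 1 := by
  unfold g
  rw [Finset.sum_comm]
  have h1 : ∀ τ ∈ range 2, ∑ s ∈ range (n * (N + e)), ∑ P ∈ range (N + 1 - l),
      (if n * (P + τ * e) ≤ s ∧ s < n * (P + τ * e) + l then b N P / 2 else 0) = 1 / 2 := by
    intro τ hτ
    rw [Finset.sum_comm]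
    have h2 : ∀ P ∈ range (N + 1 - l), ∑ s ∈ range (n * (N + e)),
        (if n * (P + τ * e) ≤ s ∧ s < n * (P + τ * e) + l then b N P / 2 else 0)
        = (l : ℝ) * (b N P / 2) := by
      intro P hP
      rw [← Finset.sum_filter, Finset.sum_const, nsmul_eq_mul]
      congr 2
      have : (range (n * (N + e))).filter (fun s => n * (P + τ * e) ≤ s ∧ s < n * (P + τ * e) + l)
          = Ico (n * (P + τ * e)) (n * (P + τ * e) + l) := by
        ext s
        rw [Finset.mem_filter, Finset.mem_range, Finset.mem_Ico]
        constructor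
        · intro h; exact h.2
        · intro h
          refine ⟨?_, h⟩
          rw [Finset.mem_range] at hτ hP
          have hτe : τ * e ≤ e := by
            have : τ ≤ 1 := by omega
            calc τ * e ≤ 1 * e := Nat.mul_le_mul_right _ this
              _ = e := one_mul _
          have h1 : n * (P + τ * e) + n * l ≤ n * (N + e) := by
            rw [← Nat.mul_add]
            apply Nat.mul_le_mul_left
            omega
          have : l ≤ n * l := Nat.le_mul_of_pos_left l hn
          omega
      rw [this, Nat.card_Ico]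
      omega
    rw [Finset.sum_congr rfl h2, ← Finset.mul_sum, ← Finset.sum_div, sum_bl hl hlN]
    have : (l : ℝ) ≠ 0 := by exact_mod_cast hl.ne'
    field_simp
  rw [Finset.sum_congr rfl h1]
  simp

/-- one block covers the point `x` at most once -/
lemma block_cover {n l x m a' : ℕ} (hl : 0 < l) {w : ℝ} (hw : 0 ≤ w) (hn : 0 < n) :
    ∑ s ∈ range m, ∑ i ∈ range n, (if s + i * l = x then
      (if n * a' ≤ s ∧ s < n * a' + l then w else 0) else 0) ≤
    if a' ≤ x / n ∧ x / n < a' + l then w else 0 := by
  have h1 : ∑ s ∈ range m, ∑ i ∈ range n, (if s + i * l = x then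
      (if n * a' ≤ s ∧ s < n * a' + l then w else 0) else 0) =
      (((range m ×ˢ range n).filter (fun p => p.1 + p.2 * l = x ∧ n * a' ≤ p.1 ∧
        p.1 < n * a' + l)).card : ℝ) * w := by
    rw [← Finset.sum_product', ← nsmul_eq_mul, ← Finset.sum_const, Finset.sum_filter]
    apply Finset.sum_congr rfl
    rintro ⟨s, i⟩ _
    by_cases h1 : s + i * l = x
    · simp [h1]
    · simp [h1]
  rw [h1]
  have h2 : ((range m ×ˢ range n).filter (fun p => p.1 + p.2 * l = x ∧ n * a' ≤ p.1 ∧
        p.1 < n * a' + l)).card ≤ 1 := by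
    rw [Finset.card_le_one]
    rintro ⟨s, i⟩ h ⟨s', i'⟩ h'
    have h := (Finset.mem_filter.1 h).2
    have h' := (Finset.mem_filter.1 h').2
    simp only at h h'
    have hi : i = i' := by
      rcases lt_trichotomy i i' with hlt | heq | hgt
      · exfalso
        have : i * l + l ≤ i' * l := by
          calc i * l + l = (i + 1) * l := by ring
            _ ≤ i' * l := Nat.mul_le_mul_right _ hlt
        omega
      · exact heq
      · exfalso
        have : i' * l + l ≤ i * l := by
          calc i' * l + l = (i' + 1) * l := by ring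
            _ ≤ i * l := Nat.mul_le_mul_right _ hgt
        omega
    subst hi
    have : s = s' := by omega
    rw [this]
  split_ifs with hc
  · have : (((range m ×ˢ range n).filter (fun p => p.1 + p.2 * l = x ∧ n * a' ≤ p.1 ∧
        p.1 < n * a' + l)).card : ℝ) ≤ 1 := by exact_mod_cast h2
    nlinarith
  · have : ((range m ×ˢ range n).filter (fun p => p.1 + p.2 * l = x ∧ n * a' ≤ p.1 ∧
        p.1 < n * a' + l)) = ∅ := by
      rw [Finset.filter_eq_empty_iff]
      rintro ⟨s, i⟩ hmem ⟨h1, h2, h3⟩
      simp only at h1 h2 h3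
      rw [Finset.mem_product, Finset.mem_range, Finset.mem_range] at hmem
      apply hc
      constructor
      · rw [Nat.le_div_iff_mul_le hn]
        have : n * a' = a' * n := mul_comm _ _
        have := Nat.zero_le (i * l)
        omega
      · rw [Nat.div_lt_iff_lt_mul hn]
        have hi : i + 1 ≤ n := hmem.2
        have h4 : i * l + l ≤ n * l := by
          calc i * l + l = (i + 1) * l := by ring
            _ ≤ n * l := Nat.mul_le_mul_right _ hi
        have h5 : (a' + l) * n = n * a' + n * l := by ring
        omega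
    rw [this]; simp

lemma load_le {n N e K k x m : ℕ} (hn : 0 < n) :
    ∑ l ∈ Ioc K k, ∑ s ∈ range m, ∑ i ∈ range n, (if s + i * l = x then g n N e l s else 0) ≤
      C N K k (x / n) / 2 + (if e ≤ x / n then C N K k (x / n - e) / 2 else 0) := by
  have h1 : ∀ l ∈ Ioc K k, ∑ s ∈ range m, ∑ i ∈ range n, (if s + i * l = x then g n N e l s else 0)
      ≤ ∑ τ ∈ range 2, ∑ P ∈ range (N + 1 - l),
        (if P + τ * e ≤ x / n ∧ x / n < (P + τ * e) + l then b N P / 2 else 0) := by
    intro l hl
    have hl0 : 0 < l := by have := (Finset.mem_Ioc.1 hl).1; omega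
    have h2 : ∀ s i, (if s + i * l = x then g n N e l s else 0) =
        ∑ τ ∈ range 2, ∑ P ∈ range (N + 1 - l), (if s + i * l = x then
          (if n * (P + τ * e) ≤ s ∧ s < n * (P + τ * e) + l then b N P / 2 else 0) else 0) := by
      intro s i
      unfold g
      split_ifs
      · rfl
      · simp
    calc _ = ∑ s ∈ range m, ∑ i ∈ range n, ∑ τ ∈ range 2, ∑ P ∈ range (N + 1 - l),
          (if s + i * l = x then
          (if n * (P + τ * e) ≤ s ∧ s < n * (P + τ * e) + l then b N P / 2 else 0) else 0) := by
          apply Finset.sum_congr rfl; intro s _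
          apply Finset.sum_congr rfl; intro i _
          exact h2 s i
      _ = ∑ τ ∈ range 2, ∑ P ∈ range (N + 1 - l), ∑ s ∈ range m, ∑ i ∈ range n,
          (if s + i * l = x then
          (if n * (P + τ * e) ≤ s ∧ s < n * (P + τ * e) + l then b N P / 2 else 0) else 0) := by
          have e1 : ∀ s ∈ range m, ∑ i ∈ range n, ∑ τ ∈ range 2, ∑ P ∈ range (N + 1 - l),
            (if s + i * l = x then (if n * (P + τ * e) ≤ s ∧ s < n * (P + τ * e) + l
              then b N P / 2 else 0) else 0) = ∑ τ ∈ range 2, ∑ P ∈ range (N + 1 - l),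
              ∑ i ∈ range n, (if s + i * l = x then (if n * (P + τ * e) ≤ s ∧
                s < n * (P + τ * e) + l then b N P / 2 else 0) else 0) := by
            intro s _
            rw [Finset.sum_comm]
            apply Finset.sum_congr rfl; intro τ _
            rw [Finset.sum_comm]
          rw [Finset.sum_congr rfl e1, Finset.sum_comm]
          apply Finset.sum_congr rfl; intro τ _
          rw [Finset.sum_comm]
      _ ≤ _ := by
          apply Finset.sum_le_sum; intro τ _
          apply Finset.sum_le_sum; intro P hP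
          exact block_cover hl0 (b2_nonneg hl0 hP) hn
  refine (Finset.sum_le_sum h1).trans ?_
  rw [Finset.sum_comm, Finset.sum_range_succ, Finset.sum_range_succ, Finset.sum_range_zero, zero_add]
  apply add_le_add
  · unfold C
    rw [Finset.sum_div]
    apply Finset.sum_le_sum
    intro l _
    rw [Finset.sum_div]
    apply Finset.sum_le_sum
    intro P _
    simp only [zero_mul, add_zero]
    split_ifs
    · exact le_rfl
    · simp
  · split_ifs with hex
    · unfold C
      rw [Finset.sum_div]
      apply Finset.sum_le_sum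
      intro l _
      rw [Finset.sum_div]
      apply Finset.sum_le_sum
      intro P _
      simp only [one_mul]
      have hiff : (P + e ≤ x / n ∧ x / n < P + e + l) ↔ (P ≤ x / n - e ∧ x / n - e < P + l) := by
        omega
      by_cases hc : P ≤ x / n - e ∧ x / n - e < P + l
      · rw [if_pos hc, if_pos (hiff.2 hc)]
      · rw [if_neg hc, if_neg (fun h => hc (hiff.1 h))]; simp
    · apply Finset.sum_nonpos
      intro l _
      apply Finset.sum_nonpos
      intro P _
      rw [if_neg]
      intro h
      apply hex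
      have := h.1
      omega

lemma load_le' {n e K k x m : ℕ} (hn : 0 < n) (hk : 0 < k) (he : e ≤ k) :
    ∑ l ∈ Ioc K k, ∑ s ∈ range m, ∑ i ∈ range n,
      (if s + i * l = x then g n (k + e) e l s else 0) ≤ 1 - (e : ℝ) / (2 * ((k : ℝ) + e)) := by
  refine (load_le hn).trans ?_
  have hkr : (0 : ℝ) < k := by exact_mod_cast hk
  have her : (0 : ℝ) ≤ e := by positivity
  have hN : (0 : ℝ) < (k : ℝ) + e := by linarith
  have hsl : ∀ X < k, C (k + e) K k X ≤ 1 - (e : ℝ) / ((k : ℝ) + e) := by
    intro X hX
    have h := C_le_slack (N := k + e) (K := K) (k := k) (X := X) (by omega) hX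
    push_cast at h
    have h2 : ((k : ℝ) + e - k) = e := by ring
    rw [h2] at h
    exact h
  have hone : ∀ X, C (k + e) K k X ≤ 1 := fun X => C_le_one
  have h2 : (e : ℝ) / (2 * ((k : ℝ) + e)) = (e : ℝ) / ((k : ℝ) + e) / 2 := by
    field_simp
  have hle1 : (e : ℝ) / ((k : ℝ) + e) ≤ 1 := by
    rw [div_le_one hN]; linarith
  have hge0 : 0 ≤ (e : ℝ) / ((k : ℝ) + e) := by positivity
  rw [h2]
  rcases lt_or_ge (x / n) k with h | h
  · have h3 := hsl _ h
    split_ifs
    · have := hone (x / n - e); linarith
    · linarith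
  · rcases lt_or_ge (x / n) (k + e) with h' | h'
    · have h3 := hone (x / n)
      rw [if_pos (by omega)]
      have := hsl (x / n - e) (by omega)
      linarith
    · rw [C_zero h']
      split_ifs
      · have := hone (x / n - e); linarith
      · linarith

end H248.AP
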