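import Mathlib
import Pool.Agent.H248.Nib
import Pool.Agent.H248.AP.Weights
import Pool.Agent.H248.AP.Greedy

/-!
# The nibble applied to progressions
-/

namespace H248.AP

open Finset Classical

/-- vertices of an edge: the terms of the progression and its difference -/
noncomputable def A (n : ℕ) (p : ℕ × ℕ) : Finset (ℕ ⊕ ℕ) :=
  (range n).image (fun i => Sum.inl (p.2 + i * p.1)) ∪ {Sum.inr p.1}

lemma mem_A {n : ℕ} {p : ℕ × ℕ} {v : ℕ ⊕ ℕ} :
    v ∈ A n p ↔ (∃ i < n, v = Sum.inl (p.2 + i * p.1)) ∨ v = Sum.inr p.1 := by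
  unfold A
  rw [Finset.mem_union, Finset.mem_image, Finset.mem_singleton]
  constructor
  · rintro (⟨i, hi, rfl⟩ | h)
    · exact Or.inl ⟨i, Finset.mem_range.1 hi, rfl⟩
    · exact Or.inr h
  · rintro (⟨i, hi, rfl⟩ | h)
    · exact Or.inl ⟨i, Finset.mem_range.2 hi, rfl⟩
    · exact Or.inr h

lemma inl_mem_A {n : ℕ} {p : ℕ × ℕ} {x : ℕ} :
    (Sum.inl x : ℕ ⊕ ℕ) ∈ A n p ↔ ∃ i < n, p.2 + i * p.1 = x := by
  rw [mem_A]
  constructor
  · rintro (⟨i, hi, h⟩ | h)
    · exact ⟨i, hi, (Sum.inl.inj h).symm⟩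
    · exact absurd h (by simp)
  · rintro ⟨i, hi, h⟩
    exact Or.inl ⟨i, hi, by rw [h]⟩

lemma inr_mem_A {n : ℕ} {p : ℕ × ℕ} {x : ℕ} :
    (Sum.inr x : ℕ ⊕ ℕ) ∈ A n p ↔ p.1 = x := by
  rw [mem_A]
  constructor
  · rintro (⟨i, hi, h⟩ | h)
    · exact absurd h (by simp)
    · exact (Sum.inr.inj h).symm
  · intro h
    exact Or.inr (by rw [h])

lemma card_A (n : ℕ) (p : ℕ × ℕ) : (A n p).card ≤ n + 1 := by
  unfold A
  refine (Finset.card_union_le _ _).trans ?_
  rw [Finset.card_singleton]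
  have : ((range n).image (fun i => (Sum.inl (p.2 + i * p.1) : ℕ ⊕ ℕ))).card ≤ n := by
    refine Finset.card_image_le.trans ?_
    simp
  omega

lemma A_nonempty (n : ℕ) (p : ℕ × ℕ) : (A n p).Nonempty := ⟨Sum.inr p.1, inr_mem_A.2 rfl⟩

/-- total weight of the good starts -/
noncomputable def cc (B n N e l : ℕ) : ℝ :=
  ∑ s ∈ range (n * (N + e)), if ¬ Bad B n l s then g n N e l s else 0

lemma cc_ge {B n N e l : ℕ} (hB : 0 < B) (hn : 0 < n) (hl : 0 < l) (hlN : l ≤ N) :
    1 - ((n : ℝ) ^ 2 / B + (n : ℝ) ^ 2 / l) ≤ cc B n N e l := by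
  have h1 : cc B n N e l + ∑ s ∈ range (n * (N + e)), (if Bad B n l s then g n N e l s else 0) = 1 := by
    unfold cc
    rw [← Finset.sum_add_distrib, ← sum_g (n := n) (N := N) (e := e) (l := l) hn hl hlN]
    apply Finset.sum_congr rfl
    intro s _
    by_cases h : Bad B n l s
    · simp [h]
    · simp [h]
  have h2 := sum_ind_g (n := n) (N := N) (e := e) hl hlN (Bad B n l) _
    (fun a => card_bad B n l a hB)
  have hl' : (0 : ℝ) < l := by exact_mod_cast hl
  have hB' : (0 : ℝ) < B := by exact_mod_cast hB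
  have h3 : (1 / (l : ℝ)) * ((n : ℝ) ^ 2 * ((l : ℝ) / B + 1)) = (n : ℝ) ^ 2 / B + (n : ℝ) ^ 2 / l := by
    field_simp
  rw [h3] at h2
  linarith

/-- the edges -/
noncomputable def Es (B n N e K k : ℕ) : Finset (ℕ × ℕ) :=
  ((Ioc K k) ×ˢ range (n * (N + e))).filter (fun p => ¬ Bad B n p.1 p.2)

lemma mem_Es {B n N e K k : ℕ} {p : ℕ × ℕ} : p ∈ Es B n N e K k ↔
    (K < p.1 ∧ p.1 ≤ k) ∧ p.2 < n * (N + e) ∧ ¬ Bad B n p.1 p.2 := by
  unfold Es
  rw [Finset.mem_filter, Finset.mem_product, Finset.mem_Ioc, Finset.mem_range]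
  tauto

/-- the weights -/
noncomputable def w (B n N e : ℕ) (p : ℕ × ℕ) : ℝ := g n N e p.1 p.2 / cc B n N e p.1

lemma sum_sub {β : Type} [DecidableEq β] (E : Finset β) (Q : β → Prop) [DecidablePred Q] (F : β → ℝ) :
    ∑ e ∈ (univ : Finset {p // p ∈ E}).filter (fun e => Q e.1), F e.1 = ∑ p ∈ E.filter Q, F p := by
  rw [Finset.sum_filter, Finset.sum_filter]
  exact Finset.sum_coe_sort E (fun p => if Q p then F p else 0)

lemma card_line {E : Finset (ℕ × ℕ)} {n : ℕ} {u v : ℕ ⊕ ℕ} (huv : u ≠ v)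
    (hE : ∀ p ∈ E, 0 < p.1) (hn : 0 < n) :
    (E.filter (fun p => u ∈ A n p ∧ v ∈ A n p)).card ≤ n * n := by
  -- cover by n * n sets with at most one element
  have key : ∀ (f : ℕ × ℕ → ℕ × ℕ → Prop), (∀ ij ∈ range n ×ˢ range n, ∀ p ∈ E, ∀ p' ∈ E,
      f ij p → f ij p' → p = p') → (∀ p ∈ E, u ∈ A n p → v ∈ A n p → ∃ ij ∈ range n ×ˢ range n, f ij p) →
      (E.filter (fun p => u ∈ A n p ∧ v ∈ A n p)).card ≤ n * n := by
    intro f h1 h2
    have hsub : E.filter (fun p => u ∈ A n p ∧ v ∈ A n p) ⊆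
        (range n ×ˢ range n).biUnion (fun ij => E.filter (fun p => f ij p)) := by
      intro p hp
      obtain ⟨hp1, hp2, hp3⟩ := Finset.mem_filter.1 hp
      obtain ⟨ij, hij, hf⟩ := h2 p hp1 hp2 hp3
      rw [Finset.mem_biUnion]
      exact ⟨ij, hij, Finset.mem_filter.2 ⟨hp1, hf⟩⟩
    refine (Finset.card_le_card hsub).trans ?_
    refine (Finset.card_biUnion_le_card_mul _ _ 1 ?_).trans ?_
    · intro ij hij
      rw [Finset.card_le_one]
      intro p hp p' hp'
      exact h1 ij hij p (Finset.mem_filter.1 hp).1 p' (Finset.mem_filter.1 hp').1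
        (Finset.mem_filter.1 hp).2 (Finset.mem_filter.1 hp').2
    · simp
  rcases u with x | a
  · rcases v with y | c
    · have hxy : x ≠ y := fun h => huv (by rw [h])
      apply key (fun ij p => p.2 + ij.1 * p.1 = x ∧ p.2 + ij.2 * p.1 = y)
      · rintro ⟨i, j⟩ _ ⟨l, s⟩ _ ⟨l', s'⟩ _ ⟨h1, h2⟩ ⟨h1', h2'⟩
        simp only at h1 h2 h1' h2'
        have hij : i ≠ j := by rintro rfl; exact hxy (h1.symm.trans h2)
        -- (j - i) * l = y - x
        have hz : ((j : ℤ) - i) * l = ((j : ℤ) - i) * l' := by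
          have e1 : (s : ℤ) + i * l = x := by exact_mod_cast h1
          have e2 : (s : ℤ) + j * l = y := by exact_mod_cast h2
          have e3 : (s' : ℤ) + i * l' = x := by exact_mod_cast h1'
          have e4 : (s' : ℤ) + j * l' = y := by exact_mod_cast h2'
          linarith
        have hne : ((j : ℤ) - i) ≠ 0 := by
          intro h; apply hij; have : (j : ℤ) = i := by linarith
          exact_mod_cast this.symm
        have hll : (l : ℤ) = l' := mul_left_cancel₀ hne hz
        have hl : l = l' := by exact_mod_cast hll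
        subst hl
        have : s = s' := by omega
        rw [this]
      · intro p _ hu hv
        obtain ⟨i, hi, h1⟩ := inl_mem_A.1 hu
        obtain ⟨j, hj, h2⟩ := inl_mem_A.1 hv
        exact ⟨(i, j), Finset.mem_product.2 ⟨Finset.mem_range.2 hi, Finset.mem_range.2 hj⟩, h1, h2⟩
    · apply key (fun ij p => p.2 + ij.1 * p.1 = x ∧ p.1 = c)
      · rintro ⟨i, j⟩ _ ⟨l, s⟩ _ ⟨l', s'⟩ _ ⟨h1, h2⟩ ⟨h1', h2'⟩
        simp only at h1 h2 h1' h2'
        subst h2; subst h2'
        have : s = s' := by omega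
        rw [this]
      · intro p _ hu hv
        obtain ⟨i, hi, h1⟩ := inl_mem_A.1 hu
        exact ⟨(i, 0), Finset.mem_product.2 ⟨Finset.mem_range.2 hi, Finset.mem_range.2 hn⟩, h1,
          inr_mem_A.1 hv⟩
  · rcases v with y | c
    · apply key (fun ij p => p.2 + ij.1 * p.1 = y ∧ p.1 = a)
      · rintro ⟨i, j⟩ _ ⟨l, s⟩ _ ⟨l', s'⟩ _ ⟨h1, h2⟩ ⟨h1', h2'⟩
        simp only at h1 h2 h1' h2'
        subst h2; subst h2'
        have : s = s' := by omega
        rw [this]
      · intro p _ hu hv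
        obtain ⟨i, hi, h1⟩ := inl_mem_A.1 hv
        exact ⟨(i, 0), Finset.mem_product.2 ⟨Finset.mem_range.2 hi, Finset.mem_range.2 hn⟩, h1,
          inr_mem_A.1 hu⟩
    · have : E.filter (fun p => (Sum.inr a : ℕ ⊕ ℕ) ∈ A n p ∧ (Sum.inr c : ℕ ⊕ ℕ) ∈ A n p) = ∅ := by
        rw [Finset.filter_eq_empty_iff]
        rintro p _ ⟨h1, h2⟩
        apply huv
        rw [← inr_mem_A.1 h1, ← inr_mem_A.1 h2]
      rw [this]; simp

/-- The nibble gives disjoint progressions for almost all differences in `(K, k]`, all of them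
avoiding the reserved set. -/
theorem nibble_step (n E : ℕ) (hn : 0 < n) (hE : 2 ≤ E) (θ : ℝ) (hθ : 0 < θ) :
    ∃ K₀ : ℕ, ∀ k K : ℕ, K₀ ≤ K → K < k →
      ∃ (D : Finset ℕ) (p : ℕ → ℕ), D ⊆ Ioc K k ∧ (1 - θ) * ((k : ℝ) - K) ≤ D.card ∧
        (∀ d ∈ D, ¬ Bad (4 * n ^ 2 * (E + 1)) n d (p d) ∧
          p d + (n - 1) * d < n * (k + 2 * (k / E + 1))) ∧
        ∀ d ∈ D, ∀ d' ∈ D, d ≠ d' → ∀ i < n, ∀ i' < n, p d + i * d ≠ p d' + i' * d' := by
  obtain ⟨κ, hκ, hnib⟩ := H248.Nib.nibble_T (n + 1) θ hθ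
  obtain ⟨K₁, hK₁⟩ := exists_nat_gt (2 * (n : ℝ) ^ 2 / κ)
  refine ⟨max K₁ (max (4 * n ^ 2 * (E + 1)) 2), ?_⟩
  intro k K hK hKk
  have hKK1 : K₁ ≤ K := (le_max_left _ _).trans hK
  have hKB : 4 * n ^ 2 * (E + 1) ≤ K := (le_max_left _ _).trans ((le_max_right _ _).trans hK)
  have hK2 : 2 ≤ K := (le_max_right _ _).trans ((le_max_right _ _).trans hK)
  set B := 4 * n ^ 2 * (E + 1) with hB
  set e := k / E + 1 with he
  set N := k + e with hN
  have hB0 : 0 < B := by positivity
  have hnr : (0 : ℝ) < n := by exact_mod_cast hn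
  have hn1 : (1 : ℝ) ≤ n := by exact_mod_cast hn
  have hKr : (0 : ℝ) < K := by
    have : 0 < K := by omega
    exact_mod_cast this
  have hk0 : 0 < k := by omega
  have hkr : (0 : ℝ) < k := by exact_mod_cast hk0
  have hek : e ≤ k := by
    have h1 : k / E ≤ k / 2 := Nat.div_le_div_left hE (by norm_num)
    omega
  have hEr : (0 : ℝ) < (E : ℝ) + 1 := by positivity
  have hkN : k ≤ N := Nat.le_add_right _ _
  -- the slack
  have hslack : 1 / (2 * ((E : ℝ) + 1)) ≤ (e : ℝ) / (2 * ((k : ℝ) + e)) := by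
    have h1 : k < E * e := by
      rw [he]
      exact Nat.lt_mul_div_succ k (by omega)
    have h2 : (k : ℝ) ≤ E * e := by exact_mod_cast h1.le
    rw [div_le_div_iff₀ (by positivity) (by positivity)]
    nlinarith
  -- total weights
  have hBr : (n : ℝ) ^ 2 / B = 1 / (4 * ((E : ℝ) + 1)) := by
    rw [hB]; push_cast
    field_simp
  have hcc : ∀ l ∈ Ioc K k, 1 - 1 / (2 * ((E : ℝ) + 1)) ≤ cc B n N e l := by
    intro l hl
    rw [Finset.mem_Ioc] at hl
    have h1 := cc_ge (B := B) (n := n) (N := N) (e := e) (l := l) hB0 hn (by omega)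
      (hl.2.trans hkN)
    have hlr : (0 : ℝ) < l := by
      have : 0 < l := by omega
      exact_mod_cast this
    have h2 : (n : ℝ) ^ 2 / l ≤ (n : ℝ) ^ 2 / B := by
      apply div_le_div_of_nonneg_left (by positivity)
      · exact_mod_cast hB0
      · have : B ≤ l := by omega
        exact_mod_cast this
    rw [hBr] at h1 h2
    have h3 : 1 / (2 * ((E : ℝ) + 1)) = 1 / (4 * ((E : ℝ) + 1)) + 1 / (4 * ((E : ℝ) + 1)) := by
      field_simp; norm_num
    linarith
  have hhalf : 1 / (2 * ((E : ℝ) + 1)) ≤ 1 / 2 := by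
    apply one_div_le_one_div_of_le (by norm_num)
    have : (0 : ℝ) ≤ E := by positivity
    linarith
  have hcc2 : ∀ l ∈ Ioc K k, 1 / 2 ≤ cc B n N e l := by
    intro l hl
    have := hcc l hl
    linarith
  let S := Es B n N e K k
  have hS1 : ∀ p ∈ S, p.1 ∈ Ioc K k := by
    intro p hp
    have := (mem_Es.1 hp).1
    exact Finset.mem_Ioc.2 this
  have hS0 : ∀ p ∈ S, 0 < p.1 := by
    intro p hp
    have := Finset.mem_Ioc.1 (hS1 p hp)
    omega
  have hwn : ∀ p ∈ S, 0 ≤ w B n N e p := by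
    intro p hp
    have h1 := hcc2 _ (hS1 p hp)
    exact div_nonneg (g_nonneg (hS0 p hp)) (by linarith)
  have hws : ∀ p ∈ S, w B n N e p ≤ 2 / K := by
    intro p hp
    have h1 := hcc2 _ (hS1 p hp)
    have h2 := Finset.mem_Ioc.1 (hS1 p hp)
    have h3 : g n N e p.1 p.2 ≤ 1 / (p.1 : ℝ) := g_le (hS0 p hp) (h2.2.trans hkN)
    have h4 : 1 / (p.1 : ℝ) ≤ 1 / K := by
      apply one_div_le_one_div_of_le hKr
      exact_mod_cast h2.1.le
    have h5 : (0 : ℝ) < 1 / K := by positivity
    unfold w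
    rw [div_le_iff₀ (by linarith)]
    calc g n N e p.1 p.2 ≤ 1 / K := h3.trans h4
      _ = 2 / K * (1 / 2) := by ring
      _ ≤ 2 / K * cc B n N e p.1 := by
          apply mul_le_mul_of_nonneg_left h1 (by positivity)
  have hκK : (n : ℝ) * n * (2 / K) ≤ κ := by
    have h1 : 2 * (n : ℝ) ^ 2 / κ < K := lt_of_lt_of_le hK₁ (by exact_mod_cast hKK1)
    rw [div_lt_iff₀ hκ] at h1
    rw [show (n : ℝ) * n * (2 / K) = 2 * (n : ℝ) ^ 2 / K by ring, div_le_iff₀ hKr]
    nlinarith
  -- double sums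
  have hdouble : ∀ (Q : ℕ × ℕ → Prop) [DecidablePred Q], ∑ p ∈ S.filter Q, w B n N e p =
      ∑ l ∈ Ioc K k, (∑ s ∈ range (n * (N + e)),
        (if ¬ Bad B n l s ∧ Q (l, s) then g n N e l s else 0)) / cc B n N e l := by
    intro Q _
    have h1 : S.filter Q = ((Ioc K k) ×ˢ range (n * (N + e))).filter
        (fun p => ¬ Bad B n p.1 p.2 ∧ Q p) := by
      simp only [S, Es, Finset.filter_filter]
    rw [h1, Finset.sum_filter, Finset.sum_product]
    apply Finset.sum_congr rfl
    intro l _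
    rw [Finset.sum_div]
    apply Finset.sum_congr rfl
    intro s _
    unfold w
    split_ifs
    · rfl
    · simp
  have htotal : ∑ p ∈ S, w B n N e p = (k : ℝ) - K := by
    have h1 := hdouble (fun _ => True)
    rw [Finset.filter_true] at h1
    rw [h1]
    have h2 : ∀ l ∈ Ioc K k, (∑ s ∈ range (n * (N + e)),
        (if ¬ Bad B n l s ∧ True then g n N e l s else 0)) / cc B n N e l = 1 := by
      intro l hl
      have h3 : (∑ s ∈ range (n * (N + e)), (if ¬ Bad B n l s ∧ True then g n N e l s else 0)) =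
          cc B n N e l := by
        unfold cc
        apply Finset.sum_congr rfl
        intro s _
        simp only [and_true]
      rw [h3]
      apply div_self
      have := hcc2 l hl
      linarith
    rw [Finset.sum_congr rfl h2]
    simp only [Finset.sum_const, Nat.card_Ioc, nsmul_eq_mul, mul_one]
    rw [Nat.cast_sub hKk.le]
  have hload : ∀ v : ℕ ⊕ ℕ, ∑ p ∈ S.filter (fun p => v ∈ A n p), w B n N e p ≤ 1 := by
    intro v
    rcases v with x | a
    · rw [hdouble]
      have hb1 : (0 : ℝ) < 1 - 1 / (2 * ((E : ℝ) + 1)) := by linarith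
      have h1 : ∀ l ∈ Ioc K k, (∑ s ∈ range (n * (N + e)),
          (if ¬ Bad B n l s ∧ (Sum.inl x : ℕ ⊕ ℕ) ∈ A n (l, s) then g n N e l s else 0)) /
            cc B n N e l ≤ (∑ s ∈ range (n * (N + e)), ∑ i ∈ range n,
              (if s + i * l = x then g n N e l s else 0)) / (1 - 1 / (2 * ((E : ℝ) + 1))) := by
        intro l hl
        have hl0 : 0 < l := by have := (Finset.mem_Ioc.1 hl).1; omega
        have h2 : (∑ s ∈ range (n * (N + e)),
          (if ¬ Bad B n l s ∧ (Sum.inl x : ℕ ⊕ ℕ) ∈ A n (l, s) then g n N e l s else 0)) ≤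
          ∑ s ∈ range (n * (N + e)), ∑ i ∈ range n, (if s + i * l = x then g n N e l s else 0) := by
          apply Finset.sum_le_sum
          intro s _
          have hnn : ∀ i ∈ range n, 0 ≤ (if s + i * l = x then g n N e l s else 0) := by
            intro i _
            split_ifs
            · exact g_nonneg hl0
            · exact le_rfl
          split_ifs with hc
          · obtain ⟨i, hi, h3⟩ := inl_mem_A.1 hc.2
            simp only at h3
            refine le_trans ?_ (Finset.single_le_sum hnn (Finset.mem_range.2 hi))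
            rw [if_pos h3]
          · exact Finset.sum_nonneg hnn
        have h4 : 0 ≤ ∑ s ∈ range (n * (N + e)), ∑ i ∈ range n,
            (if s + i * l = x then g n N e l s else 0) := by
          apply Finset.sum_nonneg; intro s _
          apply Finset.sum_nonneg; intro i _
          split_ifs
          · exact g_nonneg hl0
          · exact le_rfl
        calc _ ≤ (∑ s ∈ range (n * (N + e)), ∑ i ∈ range n,
              (if s + i * l = x then g n N e l s else 0)) / cc B n N e l := by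
              apply div_le_div_of_nonneg_right h2
              have := hcc2 l hl; linarith
          _ ≤ _ := div_le_div_of_nonneg_left h4 hb1 (hcc l hl)
      refine (Finset.sum_le_sum h1).trans ?_
      rw [← Finset.sum_div, div_le_one hb1]
      refine (load_le' hn hk0 hek).trans ?_
      linarith
    · rw [hdouble]
      calc ∑ l ∈ Ioc K k, (∑ s ∈ range (n * (N + e)),
          (if ¬ Bad B n l s ∧ (Sum.inr a : ℕ ⊕ ℕ) ∈ A n (l, s) then g n N e l s else 0)) /
            cc B n N e l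
          ≤ ∑ l ∈ Ioc K k, (if l = a then 1 else 0) := by
            apply Finset.sum_le_sum
            intro l hl
            have hcl := hcc2 l hl
            by_cases hla : l = a
            · rw [if_pos hla]
              have h3 : (∑ s ∈ range (n * (N + e)),
                (if ¬ Bad B n l s ∧ (Sum.inr a : ℕ ⊕ ℕ) ∈ A n (l, s) then g n N e l s else 0)) =
                  cc B n N e l := by
                unfold cc
                apply Finset.sum_congr rfl
                intro s _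
                have : (Sum.inr a : ℕ ⊕ ℕ) ∈ A n (l, s) := inr_mem_A.2 hla
                simp only [this, and_true]
              rw [h3, div_self (by linarith)]
            · rw [if_neg hla]
              have h3 : (∑ s ∈ range (n * (N + e)),
                (if ¬ Bad B n l s ∧ (Sum.inr a : ℕ ⊕ ℕ) ∈ A n (l, s) then g n N e l s else 0)) = 0 := by
                apply Finset.sum_eq_zero
                intro s _
                rw [if_neg]
                rintro ⟨-, h⟩
                exact hla (inr_mem_A.1 h)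
              rw [h3, zero_div]
        _ ≤ 1 := by
            rw [Finset.sum_ite_eq']
            split_ifs <;> norm_num
  have hcod : ∀ u v : ℕ ⊕ ℕ, u ≠ v →
      ∑ p ∈ S.filter (fun p => u ∈ A n p ∧ v ∈ A n p), w B n N e p ≤ κ := by
    intro u v huv
    refine le_trans ?_ hκK
    calc _ ≤ ∑ p ∈ S.filter (fun p => u ∈ A n p ∧ v ∈ A n p), (2 / (K : ℝ)) := by
          apply Finset.sum_le_sum
          intro p hp
          exact hws p (Finset.mem_filter.1 hp).1
      _ = ((S.filter (fun p => u ∈ A n p ∧ v ∈ A n p)).card : ℝ) * (2 / K) := by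
          rw [Finset.sum_const, nsmul_eq_mul]
      _ ≤ (n : ℝ) * n * (2 / K) := by
          apply mul_le_mul_of_nonneg_right _ (by positivity)
          have := card_line (E := S) huv hS0 hn
          exact_mod_cast this
  -- apply the nibble
  obtain ⟨M, hM1, hM2, hM3⟩ := hnib {p // p ∈ S} (ℕ ⊕ ℕ) (fun e' => A n e'.1)
    (fun e' => w B n N e e'.1)
    (fun e' => hwn _ e'.2) (fun e' => A_nonempty n e'.1) (fun e' => card_A n e'.1)
    (fun v => by
      have := sum_sub S (fun p => v ∈ A n p) (w B n N e)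
      rw [this]; exact hload v)
    (fun u v huv => by
      have := sum_sub S (fun p => u ∈ A n p ∧ v ∈ A n p) (w B n N e)
      rw [this]; exact hcod u v huv)
    (fun e' => by
      refine (hws _ e'.2).trans (le_trans ?_ hκK)
      have h1 : (0 : ℝ) ≤ 2 / K := by positivity
      have h2 : (1 : ℝ) ≤ (n : ℝ) * n := by nlinarith
      exact le_mul_of_one_le_left h1 h2)
  have hsum : ∑ e' : {p // p ∈ S}, w B n N e e'.1 = (k : ℝ) - K := by
    rw [← htotal]; exact Finset.sum_coe_sort S (fun p => w B n N e p)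
  rw [hsum] at hM3
  -- differences
  have hinj : ∀ e₁ ∈ M, ∀ e₂ ∈ M, e₁.1.1 = e₂.1.1 → e₁ = e₂ := by
    intro e₁ h₁ e₂ h₂ h
    by_contra hne
    have hd := hM1 e₁ h₁ e₂ h₂ hne
    rw [Finset.disjoint_left] at hd
    exact hd (a := Sum.inr e₁.1.1) (inr_mem_A.2 rfl) (inr_mem_A.2 h.symm)
  let D : Finset ℕ := M.image (fun e' => e'.1.1)
  have hDc : D.card = M.card := Finset.card_image_of_injOn (fun e₁ h₁ e₂ h₂ h => hinj e₁ h₁ e₂ h₂ h)
  have hex : ∀ d ∈ D, ∃ e' ∈ M, e'.1.1 = d := fun d hd => Finset.mem_image.1 hd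
  let p : ℕ → ℕ := fun d => if h : ∃ e' ∈ M, e'.1.1 = d then (Classical.choose h).1.2 else 0
  have hp : ∀ d ∈ D, ∃ e' ∈ M, e'.1.1 = d ∧ e'.1.2 = p d := by
    intro d hd
    have h := hex d hd
    have h2 := Classical.choose_spec h
    refine ⟨Classical.choose h, h2.1, h2.2, ?_⟩
    simp only [p]
    rw [dif_pos h]
  refine ⟨D, p, ?_, ?_, ?_, ?_⟩
  · intro d hd
    obtain ⟨e', _, rfl⟩ := hex d hd
    exact hS1 _ e'.2
  · rw [hDc]; exact hM3
  · intro d hd
    obtain ⟨e', he', h1, h2⟩ := hp d hd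
    have h3 := mem_Es.1 e'.2
    rw [h1, h2] at h3
    refine ⟨h3.2.2, ?_⟩
    have h4 := hM2 e' he'
    have hgp : 0 < g n N e e'.1.1 e'.1.2 := by
      by_contra hcon
      have h5 : g n N e e'.1.1 e'.1.2 = 0 :=
        le_antisymm (not_lt.1 hcon) (g_nonneg (hS0 _ e'.2))
      unfold w at h4
      rw [h5, zero_div] at h4
      exact absurd h4 (lt_irrefl _)
    rw [h1, h2] at hgp
    have h6 := of_g_pos hgp (h3.1.2.trans hkN) hn
    have h7 : k + 2 * e = N + e := by omega
    rw [h7]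
    exact h6
  · intro d hd d' hd' hne i hi i' hi' heq
    obtain ⟨e₁, he₁, h1, h2⟩ := hp d hd
    obtain ⟨e₂, he₂, h1', h2'⟩ := hp d' hd'
    have hne' : e₁ ≠ e₂ := by
      rintro rfl
      exact hne (h1.symm.trans h1')
    have hdj := hM1 e₁ he₁ e₂ he₂ hne'
    rw [Finset.disjoint_left] at hdj
    apply hdj (a := Sum.inl (p d + i * d))
    · rw [inl_mem_A]; exact ⟨i, hi, by rw [h1, h2]⟩
    · rw [inl_mem_A]; exact ⟨i', hi', by rw [h1', h2']; exact heq.symm⟩

end H248.AP
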